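import Pool.Agent.Y915.Stm

set_option autoImplicit false

/-!
# Formal linear differential systems: existence, uniqueness, radius of convergence
-/

namespace Pool.Agent.Y810.PC

open scoped PowerSeries
open Matrix Pool.Agent.Y915

/-- The coefficient form of `dM Y = G * Y`. -/
lemma coeff_sys {K : Type} [CommRing K] {N : ℕ} {G Y : Matrix (Fin N) (Fin N) K⟦X⟧}
    (h : dM Y = G * Y) (m : ℕ) (i j : Fin N) :
    PowerSeries.coeff (m + 1) (Y i j) * ((m : K) + 1) =
      ∑ k : Fin N, ∑ p ∈ Finset.HasAntidiagonal.antidiagonal m,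
        PowerSeries.coeff p.1 (G i k) * PowerSeries.coeff p.2 (Y k j) := by
  have h1 := congrArg (fun Z : Matrix (Fin N) (Fin N) K⟦X⟧ => PowerSeries.coeff m (Z i j)) h
  simp only [dM, Matrix.map_apply, Matrix.mul_apply, map_sum, PowerSeries.coeff_mul] at h1
  rw [← h1]
  exact (PowerSeries.coeff_derivative (Y i j) m).symm

/-- Conversely. -/
lemma sys_of_coeff {K : Type} [CommRing K] {N : ℕ} {G Y : Matrix (Fin N) (Fin N) K⟦X⟧}
    (h : ∀ (m : ℕ) (i j : Fin N), PowerSeries.coeff (m + 1) (Y i j) * ((m : K) + 1) =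
      ∑ k : Fin N, ∑ p ∈ Finset.HasAntidiagonal.antidiagonal m,
        PowerSeries.coeff p.1 (G i k) * PowerSeries.coeff p.2 (Y k j)) :
    dM Y = G * Y := by
  ext i j m
  simp only [dM, Matrix.map_apply, Matrix.mul_apply, map_sum, PowerSeries.coeff_mul]
  rw [← h m i j]
  exact PowerSeries.coeff_derivative (Y i j) m

/-- The coefficients of the solution. -/
noncomputable def yc {K : Type} [Field K] {N : ℕ} (Gc : ℕ → Matrix (Fin N) (Fin N) K) :
    ℕ → Matrix (Fin N) (Fin N) K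
  | 0 => 1
  | (m + 1) => ((m : K) + 1)⁻¹ • ∑ j : Fin (m + 1), Gc (m - j.1) * yc Gc j.1
termination_by m => m
decreasing_by exact j.2

/-- Existence. -/
theorem ode1 : StOde1 := by
  intro K _ _ N G
  set Gc : ℕ → Matrix (Fin N) (Fin N) K := fun m => G.map (PowerSeries.coeff m) with hGc
  refine ⟨Matrix.of fun i j => PowerSeries.mk fun m => yc Gc m i j, ?_, ?_⟩
  · apply sys_of_coeff
    intro m i j
    simp only [Matrix.of_apply, PowerSeries.coeff_mk]
    have hm : ((m : K) + 1) ≠ 0 := Nat.cast_add_one_ne_zero m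
    rw [yc]
    rw [Matrix.smul_apply, smul_eq_mul, mul_comm, ← mul_assoc, mul_inv_cancel₀ hm, one_mul]
    rw [Matrix.sum_apply]
    simp only [Matrix.mul_apply]
    rw [Finset.sum_comm]
    refine Finset.sum_congr rfl fun k _ => ?_
    rw [← Finset.Nat.sum_antidiagonal_swap]
    rw [Finset.Nat.sum_antidiagonal_eq_sum_range_succ
      (fun a b => PowerSeries.coeff (Prod.swap (a, b)).1 (G i k) *
        yc Gc (Prod.swap (a, b)).2 k j) m]
    rw [Finset.sum_range]
    rfl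
  · ext i j
    simp only [Matrix.map_apply, Matrix.of_apply]
    rw [← PowerSeries.coeff_zero_eq_constantCoeff_apply, PowerSeries.coeff_mk]
    rw [yc]

/-- Uniqueness. -/
theorem ode2 : StOde2 := by
  intro K _ _ N G Y Z hY hZ h0
  have key : ∀ m : ℕ, ∀ i j : Fin N,
      PowerSeries.coeff m (Y i j) = PowerSeries.coeff m (Z i j) := by
    intro m
    induction m using Nat.strong_induction_on with
    | _ m ih =>
      intro i j
      rcases m with _ | m
      · have := congrArg (fun A : Matrix (Fin N) (Fin N) K => A i j) h0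
        simpa [Matrix.map_apply] using this
      · have hm : ((m : K) + 1) ≠ 0 := Nat.cast_add_one_ne_zero m
        have e1 := coeff_sys hY m i j
        have e2 := coeff_sys hZ m i j
        have e3 : PowerSeries.coeff (m + 1) (Y i j) * ((m : K) + 1) =
            PowerSeries.coeff (m + 1) (Z i j) * ((m : K) + 1) := by
          rw [e1, e2]
          refine Finset.sum_congr rfl fun k _ => Finset.sum_congr rfl fun p hp => ?_
          have hp2 : p.2 < m + 1 := by
            have := Finset.HasAntidiagonal.mem_antidiagonal.mp hp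
            omega
          rw [ih p.2 hp2 k j]
        exact mul_right_cancel₀ hm e3
  ext i j m
  exact key m i j

/-- Growth: a sequence with `S (m+1) ≤ S m (1 + A / (m+1))` grows more slowly than `η ^ m`. -/
lemma growth (S : ℕ → ℝ) (A η : ℝ) (_hA : 0 ≤ A) (hη : 1 < η) (h0 : ∀ m, 0 ≤ S m)
    (hmono : Monotone S) (h : ∀ m : ℕ, S (m + 1) ≤ S m * (1 + A / ((m : ℝ) + 1))) :
    ∃ C : ℝ, 0 ≤ C ∧ ∀ m : ℕ, S m ≤ C * η ^ m := by
  obtain ⟨m0, hm0⟩ := exists_nat_ge (A / (η - 1))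
  have hη1 : 0 < η - 1 := by linarith
  refine ⟨S m0, h0 m0, ?_⟩
  have hone : ∀ m : ℕ, (1 : ℝ) ≤ η ^ m := fun m => one_le_pow₀ hη.le
  intro m
  rcases le_total m m0 with hle | hle
  · calc S m ≤ S m0 := hmono hle
      _ = S m0 * 1 := (mul_one _).symm
      _ ≤ S m0 * η ^ m := mul_le_mul_of_nonneg_left (hone m) (h0 m0)
  · induction m, hle using Nat.le_induction with
    | base => exact le_mul_of_one_le_right (h0 m0) (hone m0)
    | succ m hm ih =>
      have h1 : A / ((m : ℝ) + 1) ≤ η - 1 := by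
        rw [div_le_iff₀ (by positivity)]
        have h2 : (m0 : ℝ) ≤ (m : ℝ) + 1 := by
          have : (m0 : ℝ) ≤ m := by exact_mod_cast hm
          linarith
        have h3 : A / (η - 1) ≤ (m : ℝ) + 1 := hm0.trans h2
        rw [div_le_iff₀ hη1] at h3
        linarith
      calc S (m + 1) ≤ S m * (1 + A / ((m : ℝ) + 1)) := h m
        _ ≤ S m * η := mul_le_mul_of_nonneg_left (by linarith) (h0 m)
        _ ≤ (S m0 * η ^ m) * η := mul_le_mul_of_nonneg_right ih (by linarith)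
        _ = S m0 * η ^ (m + 1) := by ring

/-- The radius of convergence. -/
theorem ode3 : StOde3 := by
  intro N r G Y hG hY i0 j0 ρ hρ hρr
  set ρ1 : ℝ := (ρ + r) / 2 with hρ1
  have h1 : ρ < ρ1 := by rw [hρ1]; linarith
  have h2 : ρ1 < r := by rw [hρ1]; linarith
  have h3 : 0 < ρ1 := hρ.trans h1
  clear_value ρ1
  have hB : ∀ i k : Fin N, ∃ B : ℝ, ∀ m : ℕ, ‖PowerSeries.coeff m (G i k)‖ * ρ1 ^ m ≤ B :=
    fun i k => hG i k ρ1 h3 h2
  choose B hB using hB
  set Bt : ℝ := ∑ i : Fin N, ∑ k : Fin N, |B i k| with hBt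
  have hBt0 : 0 ≤ Bt := Finset.sum_nonneg fun i _ => Finset.sum_nonneg fun k _ => abs_nonneg _
  have hBle : ∀ (i k : Fin N) (m : ℕ), ‖PowerSeries.coeff m (G i k)‖ * ρ1 ^ m ≤ Bt := by
    intro i k m
    refine (hB i k m).trans ((le_abs_self _).trans ?_)
    refine le_trans ?_ (Finset.single_le_sum (f := fun i => ∑ k : Fin N, |B i k|)
      (fun i _ => Finset.sum_nonneg fun k _ => abs_nonneg _) (Finset.mem_univ i))
    exact Finset.single_le_sum (f := fun k => |B i k|) (fun k _ => abs_nonneg _)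
      (Finset.mem_univ k)
  clear_value Bt
  set y : ℕ → ℝ := fun m => ∑ i : Fin N, ∑ j : Fin N, ‖PowerSeries.coeff m (Y i j)‖ with hy
  have hy0 : ∀ m, 0 ≤ y m := fun m =>
    Finset.sum_nonneg fun i _ => Finset.sum_nonneg fun j _ => norm_nonneg _
  set w : ℕ → ℝ := fun m => y m * ρ1 ^ m with hw
  have hw0 : ∀ m, 0 ≤ w m := fun m => mul_nonneg (hy0 m) (pow_nonneg h3.le m)
  set S : ℕ → ℝ := fun m => ∑ l ∈ Finset.range (m + 1), w l with hS
  have hS0 : ∀ m, 0 ≤ S m := fun m => Finset.sum_nonneg fun l _ => hw0 l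
  have hSsucc : ∀ m, S (m + 1) = S m + w (m + 1) := fun m => by
    simp only [hS]; rw [Finset.sum_range_succ]
  have hmono : Monotone S := monotone_nat_of_le_succ fun m => by
    rw [hSsucc]; linarith [hw0 (m + 1)]
  set A : ℝ := ρ1 * (N * Bt) with hA
  have hA0 : 0 ≤ A := by positivity
  -- the recursive estimate for one entry
  have hent : ∀ (m : ℕ) (i j : Fin N),
      ((m : ℝ) + 1) * (‖PowerSeries.coeff (m + 1) (Y i j)‖ * ρ1 ^ (m + 1)) ≤
        ρ1 * ∑ k : Fin N, ∑ p ∈ Finset.HasAntidiagonal.antidiagonal m,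
          Bt * (‖PowerSeries.coeff p.2 (Y k j)‖ * ρ1 ^ p.2) := by
    intro m i j
    have e1 := congrArg norm (coeff_sys hY m i j)
    have e2 : ‖((m : ℂ) + 1)‖ = (m : ℝ) + 1 := by
      have : ((m : ℂ) + 1) = (((m : ℝ) + 1 : ℝ) : ℂ) := by push_cast; rfl
      rw [this, Complex.norm_real, Real.norm_of_nonneg (by positivity)]
    rw [norm_mul, e2] at e1
    have e3 : ‖PowerSeries.coeff (m + 1) (Y i j)‖ * ((m : ℝ) + 1) ≤
        ∑ k : Fin N, ∑ p ∈ Finset.HasAntidiagonal.antidiagonal m,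
          ‖PowerSeries.coeff p.1 (G i k)‖ * ‖PowerSeries.coeff p.2 (Y k j)‖ := by
      rw [e1]
      refine (norm_sum_le _ _).trans (Finset.sum_le_sum fun k _ => ?_)
      refine (norm_sum_le _ _).trans (Finset.sum_le_sum fun p _ => ?_)
      rw [norm_mul]
    have e4 : (∑ k : Fin N, ∑ p ∈ Finset.HasAntidiagonal.antidiagonal m,
          ‖PowerSeries.coeff p.1 (G i k)‖ * ‖PowerSeries.coeff p.2 (Y k j)‖) * ρ1 ^ m ≤
        ∑ k : Fin N, ∑ p ∈ Finset.HasAntidiagonal.antidiagonal m,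
          Bt * (‖PowerSeries.coeff p.2 (Y k j)‖ * ρ1 ^ p.2) := by
      rw [Finset.sum_mul]
      refine Finset.sum_le_sum fun k _ => ?_
      rw [Finset.sum_mul]
      refine Finset.sum_le_sum fun p hp => ?_
      have hp' := Finset.HasAntidiagonal.mem_antidiagonal.mp hp
      have : ρ1 ^ m = ρ1 ^ p.1 * ρ1 ^ p.2 := by rw [← pow_add, hp']
      rw [this]
      calc ‖PowerSeries.coeff p.1 (G i k)‖ * ‖PowerSeries.coeff p.2 (Y k j)‖ *
            (ρ1 ^ p.1 * ρ1 ^ p.2)
          = (‖PowerSeries.coeff p.1 (G i k)‖ * ρ1 ^ p.1) *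
            (‖PowerSeries.coeff p.2 (Y k j)‖ * ρ1 ^ p.2) := by ring
        _ ≤ Bt * (‖PowerSeries.coeff p.2 (Y k j)‖ * ρ1 ^ p.2) :=
          mul_le_mul_of_nonneg_right (hBle i k p.1) (by positivity)
    calc ((m : ℝ) + 1) * (‖PowerSeries.coeff (m + 1) (Y i j)‖ * ρ1 ^ (m + 1))
        = ρ1 * ((‖PowerSeries.coeff (m + 1) (Y i j)‖ * ((m : ℝ) + 1)) * ρ1 ^ m) := by
          rw [pow_succ]; ring
      _ ≤ ρ1 * ((∑ k : Fin N, ∑ p ∈ Finset.HasAntidiagonal.antidiagonal m,
          ‖PowerSeries.coeff p.1 (G i k)‖ * ‖PowerSeries.coeff p.2 (Y k j)‖) * ρ1 ^ m) :=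
          mul_le_mul_of_nonneg_left
            (mul_le_mul_of_nonneg_right e3 (pow_nonneg h3.le m)) h3.le
      _ ≤ _ := mul_le_mul_of_nonneg_left e4 h3.le
  -- the sum over the second coordinates
  have hanti : ∀ (m : ℕ) (f : ℕ → ℝ), ∑ p ∈ Finset.HasAntidiagonal.antidiagonal m, f p.2 =
      ∑ l ∈ Finset.range (m + 1), f l := by
    intro m f
    rw [← Finset.Nat.sum_antidiagonal_swap]
    exact Finset.Nat.sum_antidiagonal_eq_sum_range_succ (fun a _ => f a) m
  have hrec : ∀ m : ℕ, ((m : ℝ) + 1) * w (m + 1) ≤ A * S m := by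
    intro m
    have e1 : ((m : ℝ) + 1) * w (m + 1) = ∑ i : Fin N, ∑ j : Fin N,
        ((m : ℝ) + 1) * (‖PowerSeries.coeff (m + 1) (Y i j)‖ * ρ1 ^ (m + 1)) := by
      simp only [hw, hy]
      rw [Finset.sum_mul, Finset.mul_sum]
      refine Finset.sum_congr rfl fun i _ => ?_
      rw [Finset.sum_mul, Finset.mul_sum]
    rw [e1]
    have e2 : ∑ i : Fin N, ∑ j : Fin N,
        ((m : ℝ) + 1) * (‖PowerSeries.coeff (m + 1) (Y i j)‖ * ρ1 ^ (m + 1)) ≤
        ∑ i : Fin N, ∑ j : Fin N, ρ1 * ∑ k : Fin N, ∑ p ∈ Finset.HasAntidiagonal.antidiagonal m,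
          Bt * (‖PowerSeries.coeff p.2 (Y k j)‖ * ρ1 ^ p.2) :=
      Finset.sum_le_sum fun i _ => Finset.sum_le_sum fun j _ => hent m i j
    refine e2.trans (le_of_eq ?_)
    rw [Finset.sum_const, Finset.card_univ, Fintype.card_fin, nsmul_eq_mul]
    have e3 : ∀ j k : Fin N, ∑ p ∈ Finset.HasAntidiagonal.antidiagonal m,
        Bt * (‖PowerSeries.coeff p.2 (Y k j)‖ * ρ1 ^ p.2) =
        ∑ l ∈ Finset.range (m + 1), Bt * (‖PowerSeries.coeff l (Y k j)‖ * ρ1 ^ l) := fun j k =>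
      hanti m (fun l => Bt * (‖PowerSeries.coeff l (Y k j)‖ * ρ1 ^ l))
    simp only [e3]
    have e4 : ∑ j : Fin N, ρ1 * ∑ k : Fin N, ∑ l ∈ Finset.range (m + 1),
        Bt * (‖PowerSeries.coeff l (Y k j)‖ * ρ1 ^ l) = ρ1 * (Bt * S m) := by
      rw [← Finset.mul_sum]
      congr 1
      simp only [hS, hw, hy]
      rw [Finset.mul_sum, Finset.sum_comm]
      have : ∀ k : Fin N, ∑ j : Fin N, ∑ l ∈ Finset.range (m + 1),
          Bt * (‖PowerSeries.coeff l (Y k j)‖ * ρ1 ^ l) =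
          ∑ l ∈ Finset.range (m + 1), ∑ j : Fin N,
            Bt * (‖PowerSeries.coeff l (Y k j)‖ * ρ1 ^ l) := fun k => Finset.sum_comm
      simp only [this]
      rw [Finset.sum_comm]
      refine Finset.sum_congr rfl fun l _ => ?_
      rw [Finset.sum_mul, Finset.mul_sum]
      refine Finset.sum_congr rfl fun k _ => ?_
      rw [Finset.sum_mul, Finset.mul_sum]
    rw [e4, hA]
    ring
  have hstep : ∀ m : ℕ, S (m + 1) ≤ S m * (1 + A / ((m : ℝ) + 1)) := by
    intro m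
    rw [hSsucc]
    have hpos : (0 : ℝ) < (m : ℝ) + 1 := by positivity
    have e1 : w (m + 1) ≤ A * S m / ((m : ℝ) + 1) := by
      rw [le_div_iff₀ hpos]
      linarith [hrec m]
    have e2 : S m * (1 + A / ((m : ℝ) + 1)) = S m + A * S m / ((m : ℝ) + 1) := by ring
    rw [e2]
    linarith
  obtain ⟨C, hC0, hC⟩ := growth S A (ρ1 / ρ) hA0 (by rwa [one_lt_div hρ]) hS0 hmono hstep
  refine ⟨C, fun m => ?_⟩
  have f1 : ‖PowerSeries.coeff m (Y i0 j0)‖ ≤ y m := by
    simp only [hy]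
    refine le_trans ?_ (Finset.single_le_sum
      (f := fun i => ∑ j : Fin N, ‖PowerSeries.coeff m (Y i j)‖)
      (fun i _ => Finset.sum_nonneg fun k _ => norm_nonneg _) (Finset.mem_univ i0))
    exact Finset.single_le_sum (f := fun j => ‖PowerSeries.coeff m (Y i0 j)‖)
      (fun k _ => norm_nonneg _) (Finset.mem_univ j0)
  have f2 : w m ≤ S m := by
    simp only [hS]
    exact Finset.single_le_sum (f := w) (fun l _ => hw0 l) (Finset.self_mem_range_succ m)
  have f3 : y m * ρ1 ^ m ≤ C * (ρ1 / ρ) ^ m := f2.trans (hC m)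
  have f4 : y m * ρ ^ m ≤ C := by
    have hp1 : 0 < ρ1 ^ m := pow_pos h3 m
    have hp : 0 < ρ ^ m := pow_pos hρ m
    rw [div_pow] at f3
    have f5 : y m * ρ1 ^ m * ρ ^ m ≤ C * ρ1 ^ m := by
      have := mul_le_mul_of_nonneg_right f3 hp.le
      refine this.trans (le_of_eq ?_)
      field_simp
    have f6 : (y m * ρ ^ m) * ρ1 ^ m ≤ C * ρ1 ^ m := by
      calc (y m * ρ ^ m) * ρ1 ^ m = y m * ρ1 ^ m * ρ ^ m := by ring
        _ ≤ _ := f5
    exact le_of_mul_le_mul_right f6 hp1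
  exact (mul_le_mul_of_nonneg_right f1 (pow_nonneg hρ.le m)).trans f4

end Pool.Agent.Y810.PC
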